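import Pool.Agent.H90.EH.Targets

/-! Module AB3 of the board hst_modules (MP_e3a811_co). -/

set_option autoImplicit false

namespace Pool.Agent.H86.HST

open Pool.Agent.H90.EH Finset

theorem ab3_mul {ι : Type} [Fintype ι] [DecidableEq ι] (M N : Matrix ι ι ℤ) (x : ι → ℚ) :
    Lm (M * N) x = Lm M (Lm N x) := by
  have e : (M * N).map (fun z : ℤ => (z : ℚ)) =
      M.map (fun z : ℤ => (z : ℚ)) * N.map (fun z : ℤ => (z : ℚ)) := by
    ext i j
    simp [Matrix.mul_apply]
  unfold Lm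
  rw [e, Matrix.toLin'_mul]
  rfl

theorem ab3_one {ι : Type} [Fintype ι] [DecidableEq ι] (x : ι → ℚ) :
    Lm (1 : Matrix ι ι ℤ) x = x := by
  have e : (1 : Matrix ι ι ℤ).map (fun z : ℤ => (z : ℚ)) = 1 := by
    ext i j
    rw [Matrix.map_apply, Matrix.one_apply, Matrix.one_apply]
    split_ifs <;> simp
  unfold Lm
  rw [e, Matrix.toLin'_one]
  rfl

theorem ab3_zl {ι : Type} [Fintype ι] [DecidableEq ι] (M : Matrix ι ι ℤ) (x : ι → ℚ)
    (hx : x ∈ ZL ι) : Lm M x ∈ ZL ι := by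
  intro i
  choose z hz using hx
  refine ⟨∑ j, M i j * z j, ?_⟩
  simp [Lm, Matrix.toLin'_apply, Matrix.mulVec, dotProduct, hz]

theorem pf_AB3 (h1 : T_CYC) (h2 : T_CNG) (h3 : T_FPC) : T_AB3 := by
  intro ι _ _ ht M p r A hS s hs m
  have hp := hS.prime
  -- the divisibility of the counting functions
  have hcnt : ∀ m : ℕ, ((p : ℤ) ^ (s + 1)) ∣
      (cnt (ZL ι) ht (Cone (A (s + 1))) m : ℤ) - (cnt (ZL ι) ht (Cone (A s)) m : ℤ) := by
    intro m
    let X : Type := {x : ι → ℚ // x ∈ Cone (A r) ∧ x ∈ ZL ι ∧ ht x = (m : ℚ)}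
    have hfin : Finite X := ((hS.fin r le_rfl).2 m).to_subtype
    let g : X → X := fun x => ⟨Lm M x.1, hS.inv _ x.2.1, ab3_zl M _ x.2.2.1, by
      rw [hS.height]; exact x.2.2.2⟩
    have hginj : Function.Injective g := by
      intro x y hxy
      have e : Lm M x.1 = Lm M y.1 := congrArg Subtype.val hxy
      have hpos : 0 < p ^ r := pow_pos hp.pos r
      have e2 : M ^ p ^ r = M ^ (p ^ r - 1) * M := by
        rw [← pow_succ, Nat.sub_add_cancel hpos]
      apply Subtype.ext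
      rw [← ab3_one x.1, ← ab3_one y.1, ← hS.order, e2, ab3_mul, ab3_mul, e]
    let f : Equiv.Perm X := Equiv.ofBijective g (Finite.injective_iff_bijective.1 hginj)
    have hf : ∀ (k : ℕ) (x : X), ((f ^ k) x).1 = Lm (M ^ k) x.1 := by
      intro k
      induction k with
      | zero =>
        intro x
        rw [pow_zero, pow_zero, ab3_one]
        rfl
      | succ k ih =>
        intro x
        rw [pow_succ, pow_succ, ab3_mul, Equiv.Perm.mul_apply, ih]
        rfl
    have hc : ∀ t, t ≤ r → Nat.card {x : X // (f ^ p ^ t) x = x} =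
        cnt (ZL ι) ht (Cone (A t)) m := by
      intro t htr
      unfold cnt
      rw [← Nat.card_coe_set_eq]
      apply Nat.card_congr
      refine ⟨fun y => ⟨y.1.1, ?_⟩, fun x => ⟨⟨x.1, ?_⟩, ?_⟩, fun y => ?_, fun x => ?_⟩
      · refine ⟨(hS.fix t htr _).2 ⟨y.1.2.1, ?_⟩, y.1.2.2⟩
        rw [← hf, y.2]
      · exact ⟨((hS.fix t htr _).1 x.2.1).1, x.2.2⟩
      · apply Subtype.ext
        rw [hf]
        exact ((hS.fix t htr _).1 x.2.1).2
      · rfl
      · rfl
    have := h3 X f p s hp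
    rw [hc (s + 1) hs, hc s hs.le] at this
    exact this
  obtain ⟨n, hn⟩ := h1 ι M p r hp hS.order
  have hch : ∀ i : ℕ, ((p : ℤ) ^ (s + 1)) ∣
      PowerSeries.coeff i ((M ^ p ^ (s + 1)).charpolyRev : PowerSeries ℤ) -
        PowerSeries.coeff i ((M ^ p ^ s).charpolyRev : PowerSeries ℤ) := by
    intro i
    have h := h2 p r n hp s hs
    rw [← (hn (s + 1) hs).1, ← (hn s hs.le).1, Polynomial.C_dvd_iff_dvd_coeff] at h
    have h' := h i
    rw [Polynomial.coeff_sub] at h'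
    rwa [Polynomial.coeff_coe, Polynomial.coeff_coe]
  unfold th ser
  rw [PowerSeries.coeff_mul, PowerSeries.coeff_mul, ← Finset.sum_sub_distrib]
  apply Finset.dvd_sum
  intro x _
  rw [PowerSeries.coeff_mk, PowerSeries.coeff_mk]
  have e : ∀ a b c d : ℤ, a * b - c * d = (a - c) * b + c * (b - d) := by
    intro a b c d
    ring
  rw [e]
  exact dvd_add (Dvd.dvd.mul_right (hcnt _) _) (Dvd.dvd.mul_left (hch _) _)

end Pool.Agent.H86.HST
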