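import Pool.Agent.H90.EH.Targets

/-! Module ACT of the board hst_modules (MP_e3a811_co). -/

set_option autoImplicit false

namespace Pool.Agent.H86.HST

open Pool.Agent.H90.EH Finset

theorem pf_ACT : T_ACT := by
  intro G _ d ρ g x m hm
  have hm' : (0 : ℝ) < (m : ℝ) := by exact_mod_cast hm
  have hm0 : (m : ℝ) ≠ 0 := ne_of_gt hm'
  have h1 : ∀ i : Fin d, ρ.act g (fun i => (x i : ℝ) / (m : ℝ)) i =
      ((∑ j, ρ.lin g i j * x j : ℤ) : ℝ) / (m : ℝ) + (ρ.tr g i : ℝ) := by
    intro i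
    simp only [AffAct.act, Pi.add_apply, Matrix.mulVec, dotProduct, Matrix.map_apply]
    push_cast
    rw [Finset.sum_div]
    congr 1
    apply Finset.sum_congr rfl
    intro j _
    ring
  have h2 : ∀ i : Fin d, Lm (ρ.hom g) (pt x m) (Sum.inl i) =
      ((∑ j, ρ.lin g i j * x j : ℤ) : ℚ) + (ρ.tr g i : ℚ) * (m : ℚ) := by
    intro i
    simp [Lm, AffAct.hom, pt, Matrix.toLin'_apply, Matrix.mulVec, dotProduct,
      Fintype.sum_sum_type, Matrix.map_apply, Matrix.fromBlocks_apply₁₁,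
      Matrix.fromBlocks_apply₁₂]
  have h3 : Lm (ρ.hom g) (pt x m) (Sum.inr ()) = (m : ℚ) := by
    simp [Lm, AffAct.hom, pt, Matrix.toLin'_apply, Matrix.mulVec, dotProduct,
      Fintype.sum_sum_type, Matrix.map_apply, Matrix.fromBlocks_apply₂₁,
      Matrix.fromBlocks_apply₂₂]
  have key : ∀ i : Fin d, (ρ.act g (fun i => (x i : ℝ) / (m : ℝ)) i = (x i : ℝ) / (m : ℝ) ↔
      Lm (ρ.hom g) (pt x m) (Sum.inl i) = pt x m (Sum.inl i)) := by
    intro i
    rw [h1, h2]
    have e1 : (((∑ j, ρ.lin g i j * x j : ℤ) : ℝ) / (m : ℝ) + (ρ.tr g i : ℝ) =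
        (x i : ℝ) / (m : ℝ)) ↔ ((∑ j, ρ.lin g i j * x j) + ρ.tr g i * (m : ℤ) = x i) := by
      rw [div_add' _ _ _ hm0, div_left_inj' hm0]
      constructor
      · intro h
        exact_mod_cast h
      · intro h
        exact_mod_cast h
    rw [e1]
    simp only [pt, Sum.elim_inl]
    constructor
    · intro h
      exact_mod_cast h
    · intro h
      exact_mod_cast h
  constructor
  · intro h
    funext j
    rcases j with i | u
    · exact (key i).1 (congrFun h i)
    · rw [show u = () from rfl, h3]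
      simp [pt]
  · intro h
    funext i
    exact (key i).2 (congrFun h (Sum.inl i))

end Pool.Agent.H86.HST
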