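import Pool.Agent.H90.EH.Targets

/-! Module CNG of the board hst_modules (MP_e3a811_co). -/

set_option autoImplicit false

namespace Pool.Agent.H86.HST

open Pool.Agent.H90.EH Finset

theorem cng_neg (p : ℕ) [hp : Fact p.Prime] :
    (1 - Polynomial.X : Polynomial (ZMod p)) ^ (p - 1) = (Polynomial.X - 1) ^ (p - 1) := by
  rcases hp.out.eq_two_or_odd' with h | h
  · subst h
    have : (1 - Polynomial.X : Polynomial (ZMod 2)) = Polynomial.X - 1 := by
      rw [← neg_sub, CharTwo.neg_eq]
    rw [this]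
  · have he : Even (p - 1) := by
      obtain ⟨k, hk⟩ := h
      exact ⟨k, by omega⟩
    rw [← neg_sub, he.neg_pow]

theorem cng_dvd (p : ℕ) (f g : Polynomial ℤ)
    (h : f.map (Int.castRingHom (ZMod p)) = g.map (Int.castRingHom (ZMod p))) :
    ((p : ℕ) : Polynomial ℤ) ∣ f - g := by
  have e : ((p : ℕ) : Polynomial ℤ) = Polynomial.C (p : ℤ) := by simp
  rw [e, Polynomial.C_dvd_iff_dvd_coeff]
  intro i
  rw [← ZMod.intCast_zmod_eq_zero_iff_dvd]
  have := congrArg (fun q => Polynomial.coeff q i) h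
  simp only [Polynomial.coeff_map, eq_intCast] at this
  rw [Polynomial.coeff_sub, Int.cast_sub, this, sub_self]

theorem pf_CNG : T_CNG := by
  intro p r n hp s hs
  have : Fact p.Prime := ⟨hp⟩
  set F : Polynomial ℤ := (1 - Polynomial.X) ^ ((p - 1) * n (s + 1)) *
    ∏ l ∈ Ioc (s + 1) r, Polynomial.cyclotomic (p ^ (l - (s + 1))) ℤ ^ (p * n l) with hF
  set G : Polynomial ℤ := Polynomial.cyclotomic p ℤ ^ n (s + 1) *
    ∏ l ∈ Ioc (s + 1) r, Polynomial.cyclotomic (p ^ (l - s)) ℤ ^ (n l) with hG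
  have hIoc : Ioc s r = insert (s + 1) (Ioc (s + 1) r) := by
    ext l
    simp only [mem_Ioc, mem_insert]
    omega
  have hnot : (s + 1) ∉ Ioc (s + 1) r := by simp
  have hes : es p n (s + 1) = es p n s + ((p - 1) * n (s + 1)) * p ^ s := by
    unfold es
    rw [Finset.sum_range_succ _ (s + 1), Nat.totient_prime_pow_succ hp]
    ring
  have hD1 : (1 - Polynomial.X) ^ es p n (s + 1) * Dp p r n (s + 1) =
      (1 - Polynomial.X) ^ es p n s * F ^ p ^ s := by
    rw [hes, pow_add, pow_mul _ _ (p ^ s), hF, mul_pow, mul_assoc]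
    congr 2
    unfold Dp
    rw [← Finset.prod_pow]
    apply Finset.prod_congr rfl
    intro l _
    rw [← pow_mul]
    congr 1
    ring
  have hD2 : Dp p r n s = G ^ p ^ s := by
    unfold Dp
    rw [hIoc, Finset.prod_insert hnot, hG, mul_pow, ← Finset.prod_pow, ← pow_mul]
    congr 1
    · rw [show s + 1 - s = 1 by omega, pow_one, mul_comm (n (s + 1))]
    · apply Finset.prod_congr rfl
      intro l _
      rw [← pow_mul, mul_comm (n l)]
  have hmod : ((p : ℕ) : Polynomial ℤ) ∣ F - G := by
    apply cng_dvd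
    rw [hF, hG, Polynomial.map_mul, Polynomial.map_mul, Polynomial.map_pow, Polynomial.map_pow,
      Polynomial.map_prod, Polynomial.map_prod]
    congr 1
    · rw [Polynomial.map_cyclotomic, Polynomial.map_sub, Polynomial.map_one, Polynomial.map_X,
        pow_mul, cng_neg]
      congr 1
      have h1 := Polynomial.cyclotomic_mul_prime_eq_pow_of_not_dvd (ZMod p) (p := p) (n := 1)
        (fun h => hp.one_lt.ne' (Nat.dvd_one.1 h))
      rw [one_mul, Polynomial.cyclotomic_one] at h1
      exact h1.symm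
    · apply Finset.prod_congr rfl
      intro l hl
      rw [mem_Ioc] at hl
      rw [Polynomial.map_pow, Polynomial.map_pow, Polynomial.map_cyclotomic,
        Polynomial.map_cyclotomic, pow_mul]
      congr 1
      have h1 := Polynomial.cyclotomic_mul_prime_dvd_eq_pow (ZMod p) (p := p)
        (n := p ^ (l - (s + 1))) (dvd_pow_self p (by omega))
      rw [← h1, ← pow_succ]
      congr 2
      omega
  rw [hD1, hD2, ← mul_sub]
  have h2 := dvd_sub_pow_of_dvd_sub hmod s
  have e : Polynomial.C ((p : ℤ) ^ (s + 1)) = (((p : ℕ) : Polynomial ℤ)) ^ (s + 1) := by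
    simp
  rw [e]
  exact Dvd.dvd.mul_left h2 _

end Pool.Agent.H86.HST
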