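import Pool.Agent.H90.EH.Targets

/-! Module CYC of the board hst_modules (MP_e3a811_co). -/

set_option autoImplicit false

namespace Pool.Agent.H86.HST

open Pool.Agent.H90.EH Finset

theorem pf_CYC (h1 : T_CYF) (h2 : T_CYP) (h3 : T_CYR) (h4 : T_CYD) : T_CYC := by
  intro ι _ _ M p r hp hM
  have : Fact p.Prime := ⟨hp⟩
  obtain ⟨n, hn⟩ := h1 ι M p r hp hM
  refine ⟨n, fun s hs => ?_⟩
  have h := h2 ι M p r n hp hn s hs
  refine ⟨h3 ι (M ^ p ^ s) p r n s hp hs h, ?_⟩
  apply h4 ι (M ^ p ^ s) (p ^ (r - s)) (es p n s) (Dp p r n s) (Nat.one_le_pow _ _ hp.pos) _ h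
  · unfold Dp
    rw [Polynomial.eval_prod, Finset.prod_ne_zero_iff]
    intro l hl
    rw [mem_Ioc] at hl
    rw [Polynomial.eval_pow, show l - s = (l - s - 1) + 1 by omega,
      Polynomial.eval_one_cyclotomic_prime_pow]
    apply pow_ne_zero
    exact_mod_cast hp.ne_zero
  · rw [← pow_mul, ← pow_add, show s + (r - s) = r by omega, hM]

end Pool.Agent.H86.HST
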